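import Pool.Agent.helper45.FG.SpecZ

/-! # fg, part Z: DNT, near translation on the deep box -/

set_option autoImplicit false

open Complex Metric Set Filter Topology MeasureTheory
open EGH (Al Rh)
open FG FGE

noncomputable section

namespace FGZ

theorem DNT (hKO3 : V3.KO3_stmt) (hCAN : CAN_stmt) (hSTX : STX_stmt) : DNT_stmt := by
  intro L δ hL hδ
  obtain ⟨C, hC, hN⟩ := NTL hKO3
  have hL1 : 0 < L + 1 := by linarith
  have hq : 0 ≤ 8 * C * (L + 1) ^ 2 / δ := by positivity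
  refine ⟨20 * L + 8 * C * (L + 1) ^ 2 / δ, min (1 / 1000) (δ / (8 * C * (L + 1))), by linarith, lt_min (by norm_num) (by positivity), ?_⟩
  set K : ℝ := 20 * L + 8 * C * (L + 1) ^ 2 / δ with hKdef
  intro T N kap A D y a h e hPD hP he0 hhe hh hee hKh al be c t ζ hal hbe hrows hζ hnear ht hc1 hc2
  have he1 : e ≤ 1 / 1000 := hee.trans (min_le_left _ _)
  have he2 : e ≤ δ / (8 * C * (L + 1)) := hee.trans (min_le_right _ _)
  have ha0 : 0 < ‖a‖ := norm_pos_iff.2 hP.a0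
  have hKL : 20 * L ≤ K := by rw [hKdef]; linarith
  have hK0 : 0 < K := by linarith
  have hS := hSTX T N kap A D y a h e hPD hP he0 hhe hh al be t ζ hal hbe hrows hζ hnear ht
  obtain ⟨hinj, -, hdiff⟩ := hCAN T N kap A D hPD t
  have hD20 : D 2 ⊆ D 0 := (hPD.mo 1 (by norm_num)).trans (hPD.mo 0 (by norm_num))
  set z₀ : ℂ := sg y a c with hz₀
  -- coordinates about `z₀`
  have hco : ∀ w : ℂ, ((z₀ + w) - y) / a = (c : ℂ) * I + w / a := by
    intro w
    have := hP.a0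
    rw [hz₀]
    simp only [sg]
    field_simp
    ring
  have hre : ∀ w : ℂ, (((z₀ + w) - y) / a).re = (w / a).re := by
    intro w
    rw [hco w]
    simp
  have him : ∀ w : ℂ, (((z₀ + w) - y) / a).im = c + (w / a).im := by
    intro w
    rw [hco w]
    simp
  have hball : ∀ z ∈ ball z₀ (K * ‖a‖), z ∈ Bo y a (al + 1) (be - 1) (h / 16) := by
    intro z hz
    rw [mem_ball, dist_eq_norm] at hz
    have hzz : z = z₀ + (z - z₀) := by ring
    have hn : ‖(z - z₀) / a‖ < K := by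
      rw [norm_div, div_lt_iff₀ ha0]
      exact hz
    have h1 := abs_re_le_norm ((z - z₀) / a)
    have h2 := abs_im_le_norm ((z - z₀) / a)
    have h3 := abs_le.1 (h2.trans hn.le)
    have hr := hre (z - z₀)
    have hi := him (z - z₀)
    rw [← hzz] at hr hi
    refine ⟨?_, ?_, ?_⟩
    · rw [hr]
      linarith
    · rw [hi]
      linarith [h3.1]
    · rw [hi]
      linarith [h3.2]
  have hg : DifferentiableOn ℂ (T^[t]) (ball z₀ (K * ‖a‖)) :=
    hdiff.mono (fun z hz j hj => hD20 ((hS z (hball z hz)).1 j hj.le))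
  have hi : InjOn (T^[t]) (ball z₀ (K * ‖a‖)) := fun z hz w hw hzw =>
    hinj z w (fun j hj => hD20 ((hS z (hball z hz)).1 j hj.le)) (fun j hj => hD20 ((hS w (hball w hw)).1 j hj.le)) hzw
  have hz₀b : z₀ ∈ ball z₀ (K * ‖a‖) := mem_ball_self (by positivity)
  have hc0 : 0 ≤ c := by linarith
  have hch : c ≤ h := by linarith
  -- `z₀` in the place
  have hsg : ∀ s : ℝ, 0 ≤ s → s ≤ h → ‖sg y a s - y‖ ≤ h * ‖a‖ := by
    intro s hs0 hs1
    have : sg y a s - y = I * a * s := by simp only [sg]; ring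
    rw [this, norm_mul, norm_mul, norm_I, one_mul, Complex.norm_real, Real.norm_eq_abs, abs_of_nonneg hs0, mul_comm]
    exact mul_le_mul_of_nonneg_right hs1 ha0.le
  have hh0 : 0 < h := by linarith
  have hsgp : ∀ s : ℝ, 0 ≤ s → s ≤ h → sg y a s ∈ ball y (2 * h * ‖a‖) := by
    intro s hs0 hs1
    rw [mem_ball, dist_eq_norm]
    have := hsg s hs0 hs1
    nlinarith
  have hz₀p : z₀ ∈ ball y (2 * h * ‖a‖) := hsgp c hc0 hch
  have hζy : ‖ζ - y‖ ≤ (h + 2) * ‖a‖ := by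
    obtain ⟨x, hx, s, hs, rfl⟩ := hζ
    have h1 : bx T N y a ⟨x, s⟩ - y = (sg y a s - y) + (x : ℂ) * Vf T N (sg y a s) := by
      simp only [bx]
      ring
    have h2 := hP.na _ (hsgp s hs.1 hs.2)
    have h3 : ‖Vf T N (sg y a s)‖ ≤ (1 + e) * ‖a‖ := by
      have h4 : Vf T N (sg y a s) = (Vf T N (sg y a s) - a) + a := by ring
      have h5 := norm_add_le (Vf T N (sg y a s) - a) a
      rw [← h4] at h5
      linarith
    rw [h1]
    refine (norm_add_le _ _).trans ?_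
    rw [norm_mul, Complex.norm_real, Real.norm_eq_abs, abs_of_nonneg hx.1]
    have h6 := hsg s hs.1 hs.2
    have h7 : x * ‖Vf T N (sg y a s)‖ ≤ 1 * ((1 + e) * ‖a‖) := mul_le_mul hx.2 h3 (norm_nonneg _) (by norm_num)
    nlinarith
  have hgz : T^[t] z₀ ∈ ball y (2 * h * ‖a‖) := by
    rw [mem_ball, dist_eq_norm]
    have h1 := (hS z₀ (hball z₀ hz₀b)).2
    have h2 : T^[t] z₀ - y = (T^[t] z₀ - ζ) + (ζ - y) := by ring
    rw [h2]
    refine (norm_add_le _ _).trans_lt ?_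
    nlinarith
  have hb := hP.na z₀ hz₀p
  have hb' := hP.na _ hgz
  have hgb : T^[t] (z₀ + Vf T N z₀) = T^[t] z₀ + Vf T N (T^[t] z₀) := by
    have h1 : z₀ + Vf T N z₀ = T^[N] z₀ := by simp only [Vf]; ring
    have h2 : T^[t] z₀ + Vf T N (T^[t] z₀) = T^[N] (T^[t] z₀) := by simp only [Vf]; ring
    rw [h1, h2, ← Function.iterate_add_apply, ← Function.iterate_add_apply, add_comm]
  have hNT := hN (T^[t]) z₀ a (Vf T N z₀) (Vf T N (T^[t] z₀)) K (2 * L) e hP.a0 (by linarith) (by linarith) he0 (by linarith) hg hi hgb hb hb'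
  have hsub : ∀ z ∈ Bo y a (c - L) (c + L) L, z ∈ Bo y a (al + 1) (be - 1) (h / 16) := by
    rintro z ⟨h1, h2, h3⟩
    exact ⟨by linarith, by linarith, by linarith⟩
  refine ⟨fun z hz i hi => (hS z (hsub z hz)).1 i hi, ?_⟩
  intro z hz
  obtain ⟨hz1, hz2⟩ := hz
  set w : ℂ := z - z₀ with hw
  have hzw : z = z₀ + w := by rw [hw]; ring
  have hwr := hre w
  have hwi := him w
  rw [← hzw] at hwr hwi
  rw [hwr] at hz1
  rw [hwi] at hz2
  have hwn : ‖w‖ ≤ 2 * L * ‖a‖ := by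
    have h1 : ‖w / a‖ ≤ |(w / a).re| + |(w / a).im| := norm_le_abs_re_add_abs_im _
    have h2 : |(w / a).im| ≤ L := abs_le.2 ⟨by linarith [hz2.1], by linarith [hz2.2]⟩
    have h3 : ‖w / a‖ ≤ 2 * L := by linarith
    rw [norm_div, div_le_iff₀ ha0] at h3
    exact h3
  have hfin := (hNT w hwn).1
  have heq : T^[t] z - z - (T^[t] (sg y a c) - sg y a c) / a * a = T^[t] (z₀ + w) - T^[t] z₀ - w := by
    rw [div_mul_cancel₀ _ hP.a0, ← hzw, ← hz₀, hw]
    ring
  rw [heq]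
  refine hfin.trans ?_
  have hCe : C * e * (2 * L) ≤ δ / 4 := by
    have h1 : e * (8 * C * (L + 1)) ≤ δ := by
      rw [le_div_iff₀ (by positivity)] at he2
      exact he2
    have h2 : 0 ≤ C * e := by positivity
    nlinarith
  have hCK : C * (2 * L / K) * (2 * L) ≤ δ / 2 := by
    have h1 : 8 * C * (L + 1) ^ 2 ≤ K * δ := by
      have h2 : 8 * C * (L + 1) ^ 2 / δ ≤ K := by rw [hKdef]; linarith
      rw [div_le_iff₀ hδ] at h2
      exact h2
    have h3 : C * (2 * L / K) * (2 * L) = 4 * C * L ^ 2 / K := by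
      field_simp
      ring
    rw [h3, div_le_iff₀ hK0]
    have h4 : L ^ 2 ≤ (L + 1) ^ 2 := by nlinarith
    have h5 : C * L ^ 2 ≤ C * (L + 1) ^ 2 := mul_le_mul_of_nonneg_left h4 (by linarith)
    linarith
  have hCn : 0 ≤ C * (e + 2 * L / K) := by positivity
  calc C * (e + 2 * L / K) * ‖w‖ ≤ C * (e + 2 * L / K) * (2 * L * ‖a‖) := mul_le_mul_of_nonneg_left hwn hCn
    _ = (C * e * (2 * L) + C * (2 * L / K) * (2 * L)) * ‖a‖ := by ring
    _ ≤ δ * ‖a‖ := mul_le_mul_of_nonneg_right (by linarith) ha0.le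

end FGZ
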